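import Pool.Agent.Helper28.IV.Spec
import Pool.Agent.Helper84.Places.Rand

set_option autoImplicit false

namespace Pool.Agent.Helper88.IV.C

open Filter Topology MeasureTheory ProbabilityTheory Finset
open Pool.Agent.Helper84.Places Pool.Agent.Helper28.IV

variable {b : ℕ} [NeZero b]

/-- the centred indicator -/
noncomputable def g {k : ℕ} (w : Fin k → Fin b) (s : ℕ) (y : ℕ → Fin b) : ℝ := iv w s y - pb b k

lemma g_meas {k : ℕ} (w : Fin k → Fin b) (s : ℕ) : Measurable (g w s) :=
  (iv_meas w s).sub_const _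

lemma g_bd {k : ℕ} (w : Fin k → Fin b) (s : ℕ) (y : ℕ → Fin b) : |g w s y| ≤ 1 := by
  have h := pb_mem (b := b) (m := k)
  unfold g iv Set.indicator
  rw [abs_le]
  split_ifs <;> constructor <;> linarith [h.1, h.2]

lemma g_int {k : ℕ} (w : Fin k → Fin b) (s : ℕ) : Integrable (g w s) (ran b) :=
  ((integrable_const (1 : ℝ)).indicator (ev_meas w s)).sub (integrable_const _)

lemma g_zero {k : ℕ} (w : Fin k → Fin b) (s : ℕ) : ∫ y, g w s y ∂(ran b) = 0 := by
  have hE : ∫ y, iv w s y ∂(ran b) = pb b k := by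
    unfold iv
    rw [integral_indicator_const _ (ev_meas w _), ran_real]
    simp
  have h := integral_sub (μ := ran b) (f := iv w s) (g := fun _ => pb b k)
    ((integrable_const (1 : ℝ)).indicator (ev_meas w s)) (integrable_const _)
  unfold g
  rw [h, hE]
  simp

lemma gg_bd {k : ℕ} (w : Fin k → Fin b) (s t : ℕ) (y : ℕ → Fin b) :
    ‖g w s y * g w t y‖ ≤ 1 := by
  rw [Real.norm_eq_abs, abs_mul]
  exact mul_le_one₀ (g_bd w s y) (abs_nonneg _) (g_bd w t y)

lemma gg_int {k : ℕ} (w : Fin k → Fin b) (s t : ℕ) :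
    Integrable (fun y => g w s y * g w t y) (ran b) :=
  Integrable.of_bound ((g_meas w s).mul (g_meas w t)).aestronglyMeasurable 1
    (Eventually.of_forall fun y => gg_bd w s t y)

lemma gg_zero {k : ℕ} (w : Fin k → Fin b) {s t : ℕ} (h : s + k ≤ t ∨ t + k ≤ s) :
    ∫ y, g w s y * g w t y ∂(ran b) = 0 := by
  have hi : IndepFun (g w s) (g w t) (ran b) :=
    (iv_indep w h).comp (φ := fun x => x - pb b k) (ψ := fun x => x - pb b k)
      (measurable_id.sub_const _) (measurable_id.sub_const _)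
  have := hi.integral_mul_eq_mul_integral (g_meas w s).aestronglyMeasurable
    (g_meas w t).aestronglyMeasurable
  have h2 : ∫ y, g w s y * g w t y ∂(ran b) = (∫ y, g w s y ∂(ran b)) * ∫ y, g w t y ∂(ran b) :=
    this
  rw [h2, g_zero, zero_mul]

lemma gg_le {k : ℕ} (w : Fin k → Fin b) (s t : ℕ) :
    ∫ y, g w s y * g w t y ∂(ran b) ≤ 1 := by
  have h := norm_integral_le_of_norm_le_const (μ := ran b) (C := 1)
    (Eventually.of_forall fun y => gg_bd w s t y)
  have h1 : (ran b).real Set.univ = 1 := by simp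
  rw [h1, mul_one] at h
  exact (le_abs_self _).trans h

lemma var_le {k : ℕ} (w : Fin k → Fin b) (s t : ℕ) :
    ∫ y, (∑ i ∈ Finset.Ico s t, g w i y) ^ 2 ∂(ran b) ≤ 2 * k * ((t - s : ℕ) : ℝ) := by
  have e : ∀ y, (∑ i ∈ Finset.Ico s t, g w i y) ^ 2
      = ∑ i ∈ Finset.Ico s t, ∑ j ∈ Finset.Ico s t, g w i y * g w j y := by
    intro y
    rw [sq, Finset.sum_mul_sum]
  simp_rw [e]
  rw [integral_finsetSum _ (fun i _ => integrable_finsetSum _ fun j _ => gg_int w i j)]
  have h1 : ∀ i ∈ Finset.Ico s t,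
      ∫ y, ∑ j ∈ Finset.Ico s t, g w i y * g w j y ∂(ran b) ≤ 2 * k := by
    intro i _
    rw [integral_finsetSum _ (fun j _ => gg_int w i j)]
    have h2 : ∀ j ∈ Finset.Ico s t, ∫ y, g w i y * g w j y ∂(ran b)
        ≤ if i + k ≤ j ∨ j + k ≤ i then 0 else 1 := by
      intro j _
      split_ifs with h
      · exact (gg_zero w h).le
      · exact gg_le w i j
    refine (Finset.sum_le_sum h2).trans ?_
    rw [Finset.sum_ite, Finset.sum_const_zero, zero_add, Finset.sum_const, nsmul_eq_mul, mul_one]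
    have h3 : (Finset.filter (fun x => ¬(i + k ≤ x ∨ x + k ≤ i)) (Finset.Ico s t)).card
        ≤ 2 * k := by
      have h4 : Finset.filter (fun x => ¬(i + k ≤ x ∨ x + k ≤ i)) (Finset.Ico s t)
          ⊆ Finset.Ico (i - k) (i + k) := by
        intro x hx
        rw [Finset.mem_filter] at hx
        rw [Finset.mem_Ico]
        omega
      refine (Finset.card_le_card h4).trans ?_
      rw [Nat.card_Ico]
      omega
    exact_mod_cast h3
  refine (Finset.sum_le_sum h1).trans ?_
  rw [Finset.sum_const, Nat.card_Ico, nsmul_eq_mul]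
  linarith

omit [NeZero b] in
lemma cI_eq (a : ℕ → Fin b) (s t : ℕ) {k : ℕ} (w : Fin k → Fin b) :
    (cI a s t w : ℝ) = ∑ i ∈ Finset.Ico s t, iv w i a := by
  classical
  unfold cI
  simp_rw [iv_eq]
  unfold ci
  rw [Finset.card_filter]
  push_cast
  rfl

theorem ae_norm (u v : ℕ → ℕ) (huv : ∀ j, u j < v j)
    (hs : Summable (fun j => 1 / ((v j : ℝ) - u j))) {k : ℕ} (w : Fin k → Fin b) :
    ∀ᵐ y ∂(ran b), Tendsto (fun j => (cI y (u j) (v j) w : ℝ) / ((v j : ℝ) - u j)) atTop
      (𝓝 (pb b k)) := by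
  have hL : ∀ j, (0 : ℝ) < (v j : ℝ) - u j := by
    intro j
    have : (u j : ℝ) < v j := by exact_mod_cast huv j
    linarith
  have hLn : ∀ j, ((v j - u j : ℕ) : ℝ) = (v j : ℝ) - u j := fun j => Nat.cast_sub (huv j).le
  -- the deviation
  have hdev : ∀ j y, (cI y (u j) (v j) w : ℝ) / ((v j : ℝ) - u j) - pb b k
      = (∑ i ∈ Finset.Ico (u j) (v j), g w i y) / ((v j : ℝ) - u j) := by
    intro j y
    unfold g
    rw [Finset.sum_sub_distrib, Finset.sum_const, Nat.card_Ico, nsmul_eq_mul, hLn, cI_eq, sub_div,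
      mul_div_cancel_left₀ _ (hL j).ne']
  have hmeas : ∀ j, Measurable fun y : ℕ → Fin b =>
      (∑ i ∈ Finset.Ico (u j) (v j), g w i y) / ((v j : ℝ) - u j) := by
    intro j
    exact (Finset.measurable_sum _ fun i _ => g_meas w i).div_const _
  have hint : ∀ j, Integrable (fun y : ℕ → Fin b =>
      ((∑ i ∈ Finset.Ico (u j) (v j), g w i y) / ((v j : ℝ) - u j)) ^ 2) (ran b) := by
    intro j
    simp_rw [div_pow, sq (∑ i ∈ Finset.Ico (u j) (v j), g w i _), Finset.sum_mul_sum]
    exact (integrable_finsetSum _ fun i _ => integrable_finsetSum _ fun j _ =>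
      gg_int w i j).div_const _
  have hbd : ∀ j, ∫⁻ y, ENNReal.ofReal
      (((∑ i ∈ Finset.Ico (u j) (v j), g w i y) / ((v j : ℝ) - u j)) ^ 2) ∂(ran b)
        ≤ ENNReal.ofReal (2 * k * (1 / ((v j : ℝ) - u j))) := by
    intro j
    rw [← ofReal_integral_eq_lintegral_ofReal (hint j) (Eventually.of_forall fun y => sq_nonneg _)]
    apply ENNReal.ofReal_le_ofReal
    simp_rw [div_pow]
    rw [integral_div, div_le_iff₀ (by have := hL j; positivity)]
    refine (var_le w (u j) (v j)).trans (le_of_eq ?_)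
    rw [hLn]
    have := (hL j).ne'
    field_simp
  have hsum : ∑' j, ENNReal.ofReal (2 * k * (1 / ((v j : ℝ) - u j))) ≠ ⊤ :=
    (hs.mul_left (2 * k : ℝ)).tsum_ofReal_ne_top
  have hlt : ∫⁻ y, ∑' j, ENNReal.ofReal
      (((∑ i ∈ Finset.Ico (u j) (v j), g w i y) / ((v j : ℝ) - u j)) ^ 2) ∂(ran b) ≠ ⊤ := by
    rw [lintegral_tsum fun j => ((hmeas j).pow_const 2).ennreal_ofReal.aemeasurable]
    exact ne_top_of_le_ne_top hsum (ENNReal.tsum_le_tsum hbd)
  have hae := ae_lt_top (Measurable.tsum fun j =>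
    ((hmeas j).pow_const 2).ennreal_ofReal) hlt
  filter_upwards [hae] with y hy
  have h1 := ENNReal.tendsto_atTop_zero_of_tsum_ne_top hy.ne
  have h2 : Tendsto (fun j => ((∑ i ∈ Finset.Ico (u j) (v j), g w i y) /
      ((v j : ℝ) - u j)) ^ 2) atTop (𝓝 0) := by
    have h3 := (ENNReal.tendsto_toReal ENNReal.zero_ne_top).comp h1
    simp only [ENNReal.toReal_zero] at h3
    refine h3.congr fun j => ?_
    simp only [Function.comp]
    rw [ENNReal.toReal_ofReal (sq_nonneg _)]
  have h4 : Tendsto (fun j => (∑ i ∈ Finset.Ico (u j) (v j), g w i y) /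
      ((v j : ℝ) - u j)) atTop (𝓝 0) := by
    have h5 := (Real.continuous_sqrt.tendsto 0).comp h2
    rw [Real.sqrt_zero] at h5
    rw [tendsto_zero_iff_abs_tendsto_zero]
    refine h5.congr fun j => ?_
    simp only [Function.comp]
    rw [Real.sqrt_sq_eq_abs]
  have h6 := h4.add_const (pb b k)
  rw [zero_add] at h6
  refine h6.congr fun j => ?_
  rw [← hdev]
  ring

theorem main : S_C := by
  intro b _ u v _ huv hs
  have h : ∀ᵐ y ∂(ran b), Pool.Agent.Helper28.IV.Norm u v y := by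
    unfold Pool.Agent.Helper28.IV.Norm
    rw [ae_all_iff]
    intro k
    by_cases hk : 0 < k
    · have h2 : ∀ᵐ y ∂(ran b), ∀ w : Fin k → Fin b,
          Tendsto (fun j => (cI y (u j) (v j) w : ℝ) / ((v j : ℝ) - u j)) atTop
            (𝓝 (pb b k)) := by
        rw [ae_all_iff]
        intro w
        exact ae_norm u v huv hs w
      filter_upwards [h2] with y hy _ w
      exact hy w
    · exact Eventually.of_forall fun y hk2 => absurd hk2 hk
  exact h.exists

end Pool.Agent.Helper88.IV.C
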